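import Pool.Agent.Q181.ML.Smooth

set_option autoImplicit false

/-!
# Complete monotonicity of the Mittag-Leffler square sum

For every `α ∈ (0, 1/2]` the function
`f_α(t) = |E_{2α,1}(-t)|² + t |E_{2α,1+α}(-t)|²` is completely monotone on `(0, ∞)` (Q1), strictly
positive and log-convex there (Q2).

Proof.  Let `β = 2α`.  For `0 ≤ s < 1` put `c_n(s) = [z^n] (1-z)^(β-1)/((1-z)^β + s)` and
`d_n(s) = [z^n] (1-z)^(α-1)/((1-z)^β + s)`.  With `A = (1-z)^α`, `B = (1-w)^α` one has
`(A + B)(AB + s) = A (B² + s) + B (A² + s)`, which gives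
`c_n(s)² + s d_n(s)² = ∑_{i ≤ n} w_{n,i} c_i(s)` with weights `w_{n,i} ≥ 0` not depending on `s`
(the coefficients of `(1-z)^(α-1)/(A+B)` are nonnegative), and `c_i(s)` is a nonnegative combination
of the powers of `1/(1+s)`, because `1 - (1-z)^β` has nonnegative coefficients for `0 < β ≤ 1`.
With `s = t/n^β` and `n → ∞` the left side tends to `f_α(t)`.
-/

namespace Pool.Agent.Results.MP_38d52f_an.CompletelyMonotoneSquareSum

open scoped ContDiff

/-- The two-parameter Mittag-Leffler function `E_{a,b}(z) = ∑_{k ≥ 0} z^k / Γ(a k + b)`. -/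
noncomputable def mittagLeffler (a b : ℝ) (z : ℂ) : ℂ :=
  ∑' k : ℕ, z ^ k / Complex.Gamma ((a : ℂ) * k + b)

/-- `f_α(t) = |E_{2α,1}(-t)|² + t |E_{2α,1+α}(-t)|²`. -/
noncomputable def squareSum (α t : ℝ) : ℝ :=
  ‖mittagLeffler (2 * α) 1 (-(t : ℂ))‖ ^ 2 + t * ‖mittagLeffler (2 * α) (1 + α) (-(t : ℂ))‖ ^ 2

/-- `g` is completely monotone on `(0, ∞)`: it is `C^∞` there and `(-1)^n g^(n)(t) ≥ 0` for all
`n ≥ 0` and all `t > 0`. -/
def CompletelyMonotone (g : ℝ → ℝ) : Prop :=
  ContDiffOn ℝ ∞ g (Set.Ioi 0) ∧ ∀ n : ℕ, ∀ t : ℝ, 0 < t → 0 ≤ (-1) ^ n * iteratedDeriv n g t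

open Pool.Agent.Q181.ML

lemma mittagLeffler_real {c d t : ℝ} (e : ℝ) (he : e = 1 + d) :
    mittagLeffler c e (-(t : ℂ)) = ((E c d t : ℝ) : ℂ) := by
  rw [mittagLeffler, E, Complex.ofReal_tsum]
  apply tsum_congr
  intro k
  have h1 : ((c : ℂ) * k + e) = ((1 + (d + c * k) : ℝ) : ℂ) := by
    rw [he]
    push_cast
    ring
  rw [h1, Complex.Gamma_ofReal]
  push_cast
  rw [mul_one_div]

lemma squareSum_eq (α : ℝ) : squareSum α = F α := by
  funext t
  rw [squareSum, F, mittagLeffler_real (c := 2 * α) (d := 0) 1 (by ring),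
    mittagLeffler_real (c := 2 * α) (d := α) (1 + α) rfl, Complex.norm_real, Complex.norm_real,
    Real.norm_eq_abs, Real.norm_eq_abs, sq_abs, sq_abs]

/-- **Main theorem.** For every `α ∈ (0, 1/2]`, the function
`f_α(t) = |E_{2α,1}(-t)|² + t |E_{2α,1+α}(-t)|²` is completely monotone on `(0, ∞)`; it is strictly
positive and log-convex there. -/
theorem result (α : ℝ) (h0 : 0 < α) (h1 : α ≤ 1 / 2) :
    CompletelyMonotone (squareSum α) ∧ (∀ t : ℝ, 0 < t → 0 < squareSum α t) ∧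
      ConvexOn ℝ (Set.Ioi 0) (fun t => Real.log (squareSum α t)) := by
  rw [squareSum_eq]
  have hL := F_isLim h0 h1
  have hS := F_contDiff h0
  have hpos : ∀ t : ℝ, 0 ≤ t → 0 < F α t := fun t ht =>
    hL.pos (by rw [F_zero]; norm_num) hS.continuous ht
  refine ⟨⟨(hS.of_le le_top).contDiffOn, fun n t ht => hL.deriv_sign hS n ht.le⟩,
    fun t ht => hpos t ht.le, convex_Ioi 0, ?_⟩
  intro x hx y hy a b ha hb hab
  have hx0 : 0 < x := hx
  have hy0 : 0 < y := hy
  simp only [smul_eq_mul]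
  rcases ha.eq_or_lt with h | ha'
  · subst h
    have : b = 1 := by linarith
    subst this
    simp
  rcases hb.eq_or_lt with h | hb'
  · subst h
    have : a = 1 := by linarith
    subst this
    simp
  have h2 := hL.logconvex hx0.le hy0.le ha' hb' hab
  have h3 := hpos (a * x + b * y) (by positivity)
  have h4 := Real.log_le_log h3 h2
  have hfx := hpos x hx0.le
  have hfy := hpos y hy0.le
  rwa [Real.log_mul (by positivity) (by positivity), Real.log_rpow hfx, Real.log_rpow hfy] at h4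

end Pool.Agent.Results.MP_38d52f_an.CompletelyMonotoneSquareSum
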